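import Pool.Agent.MP_c46de2_gt.Odd

/-!
# Jacobi diagrams with an odd automorphism vanish over the integers

A vertex-oriented trivalent graph with an automorphism which reverses the orientation at an odd
number of vertices satisfies `Γ = -Γ` in `A(∅; ℤ)`, that is, `2 Γ = 0`. We show that it is in fact
zero in `A(∅; ℤ)`.
-/

set_option autoImplicit false

open Equiv

namespace Pool.Agent.Results.MP_c46de2_gt.OddSymmetryVanishes

open Pool.Agent.MP_c46de2_gt

/-- The relators of `A(∅; ℤ)` on the vertex-oriented trivalent graphs with vertex set `V`: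

* isomorphism and AS: a graph which is relabelled by a permutation `β` of the vertices and by
  permutations `γ v` of the three half-edges at the vertices, minus `∏ v, sign (γ v)` times the
  graph;
* IHX: for an edge `{h, mate h}` which is not a loop, the sum of the three graphs obtained by
  rotating three of the four half-edges next to this edge. -/
def relators (V : Type) [Fintype V] [DecidableEq V] : Set (FreeAbelianGroup (TriGraph V)) :=
  {x | ∃ (Γ : TriGraph V) (β : Perm V) (γ : V → Perm (Fin 3)),
    x = FreeAbelianGroup.of (Γ.conj (prodShear β γ)) -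
      ((∏ v, Perm.sign (γ v) : ℤˣ) : ℤ) • FreeAbelianGroup.of Γ} ∪
  {x | ∃ (Γ : TriGraph V) (h : V × Fin 3), (Γ.mate h).1 ≠ h.1 ∧
    x = FreeAbelianGroup.of Γ + FreeAbelianGroup.of (Γ.conj (Γ.rotation h)) +
      FreeAbelianGroup.of (Γ.conj (Γ.rotation h)⁻¹)}

/-- The part of degree `d` of `A(∅; ℤ)`: the abelian group generated by the vertex-oriented
trivalent graphs with `2 * d` vertices, modulo isomorphism, AS and IHX. -/
def JacobiGroup (d : ℕ) : Type :=
  FreeAbelianGroup (TriGraph (Fin (2 * d))) ⧸ AddSubgroup.closure (relators (Fin (2 * d)))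

instance (d : ℕ) : AddCommGroup (JacobiGroup d) :=
  inferInstanceAs (AddCommGroup (FreeAbelianGroup (TriGraph (Fin (2 * d))) ⧸
    AddSubgroup.closure (relators (Fin (2 * d)))))

/-- The class of a graph in `A(∅; ℤ)`. -/
def jacobiClass (d : ℕ) (Γ : TriGraph (Fin (2 * d))) : JacobiGroup d :=
  (QuotientAddGroup.mk' (AddSubgroup.closure (relators (Fin (2 * d))))) (FreeAbelianGroup.of Γ)

theorem isWeight_jacobiClass (d : ℕ) : IsWeight (jacobiClass d) where
  relabel Γ β γ := by
    have h : FreeAbelianGroup.of (Γ.conj (prodShear β γ)) -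
        ((∏ v, Perm.sign (γ v) : ℤˣ) : ℤ) • FreeAbelianGroup.of Γ ∈
        AddSubgroup.closure (relators (Fin (2 * d))) :=
      AddSubgroup.subset_closure (Or.inl ⟨Γ, β, γ, rfl⟩)
    have h2 := (QuotientAddGroup.eq_zero_iff _).2 h
    have h3 : QuotientAddGroup.mk' (AddSubgroup.closure (relators (Fin (2 * d))))
      (FreeAbelianGroup.of (Γ.conj (prodShear β γ)) -
        ((∏ v, Perm.sign (γ v) : ℤˣ) : ℤ) • FreeAbelianGroup.of Γ) = 0 := h2
    rw [map_sub, map_zsmul, sub_eq_zero] at h3
    exact h3
  ihx Γ h hh := by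
    have h1 : FreeAbelianGroup.of Γ + FreeAbelianGroup.of (Γ.conj (Γ.rotation h)) +
        FreeAbelianGroup.of (Γ.conj (Γ.rotation h)⁻¹) ∈
        AddSubgroup.closure (relators (Fin (2 * d))) :=
      AddSubgroup.subset_closure (Or.inr ⟨Γ, h, hh, rfl⟩)
    have h2 := (QuotientAddGroup.eq_zero_iff _).2 h1
    have h3 : QuotientAddGroup.mk' (AddSubgroup.closure (relators (Fin (2 * d))))
      (FreeAbelianGroup.of Γ + FreeAbelianGroup.of (Γ.conj (Γ.rotation h)) +
        FreeAbelianGroup.of (Γ.conj (Γ.rotation h)⁻¹)) = 0 := h2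
    rw [map_add, map_add] at h3
    exact h3

/-- **Theorem.** Every vertex-oriented trivalent graph with an automorphism which reverses the
orientation at an odd number of vertices is zero in `A(∅; ℤ)`. -/
theorem result (d : ℕ) (Γ : TriGraph (Fin (2 * d))) (hΓ : HasOddAut Γ) : jacobiClass d Γ = 0 :=
  weight_eq_zero (isWeight_jacobiClass d) Γ hΓ

end Pool.Agent.Results.MP_c46de2_gt.OddSymmetryVanishes
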